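import Pool.Agent.H34.TAM.Stmts3
import Pool.Agent.H1.AUT.DPE

/-!
Board per, row LNK: the cyclic gradient of a substituted polynomial.
-/

set_option autoImplicit false

noncomputable section

open Filter
open scoped Topology TensorProduct

namespace Pool.PER

open Pool.CGR Pool.CGS Pool.TAM Pool.AUT MulOpposite

namespace H1

theorem lift_pe {m : ℕ} {A : Type} [Ring A] [Algebra ℂ A] (x : Fin m → A)
    (P : List (Fin m) →₀ ℂ) : FreeAlgebra.lift ℂ x (pe io P) = pe x P := by
  unfold pe
  rw [map_finsuppSum]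
  refine Finsupp.sum_congr fun w _ => ?_
  rw [map_smul, Pool.AUT.H1.lift_ev]

theorem lift_lift {m : ℕ} {A : Type} [Ring A] [Algebra ℂ A] (x : Fin m → A) (F : Fin m → Fr m)
    (q : Fr m) : FreeAlgebra.lift ℂ (fun j => FreeAlgebra.lift ℂ x (F j)) q =
      FreeAlgebra.lift ℂ x (FreeAlgebra.lift ℂ F q) := by
  have h : FreeAlgebra.lift ℂ (fun j => FreeAlgebra.lift ℂ x (F j)) =
      (FreeAlgebra.lift ℂ x).comp (FreeAlgebra.lift ℂ F) := by
    apply FreeAlgebra.hom_ext
    funext j
    rw [Function.comp_apply, Function.comp_apply, FreeAlgebra.lift_ι_apply, AlgHom.comp_apply,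
      FreeAlgebra.lift_ι_apply]
  rw [h, AlgHom.comp_apply]

end H1

open H1

theorem lnk_thm (h1 : CPEStmt) (h2 : DRXStmt) (h3 : DIFStmt) : LNKStmt := by
  intro m A _ τ hτ x D hD F i H P
  obtain ⟨δ, hδ, hq⟩ := h2 m (fun k => if k = i then pe io P else 0)
  obtain ⟨_, hd2, hd3, _⟩ := h3 m D hD
  have e1 := h1 m A τ hτ.comm (fun j => FreeAlgebra.lift ℂ x (F j)) δ hδ H
  rw [Finset.sum_eq_single i] at e1
  · rw [hq i, if_pos rfl, lift_pe] at e1
    rw [← e1]
    have e2 : δ (pe io H) = ac (D i (pe io H)) (pe io P) := by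
      rw [hd3 δ hδ, Finset.sum_eq_single i]
      · rw [hq i, if_pos rfl]
      · intro k _ hk
        rw [hq k, if_neg hk]
        unfold ac
        rw [map_zero]
      · intro h
        exact absurd (Finset.mem_univ i) h
    rw [e2, ← hd2]
    unfold tx
    rw [LinearMap.comp_apply, LinearMap.comp_apply, AlgHom.toLinearMap_apply,
      AlgHom.toLinearMap_apply, lift_lift]
  · intro k _ hk
    rw [hq k, if_neg hk, map_zero, mul_zero, map_zero]
  · intro h
    exact absurd (Finset.mem_univ i) h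

end Pool.PER
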