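import Pool.Agent.H34.TAM.Stmts3

/-!
Board per, row NMM: matrices over `T`.
-/

set_option autoImplicit false

noncomputable section

open Filter
open scoped Topology TensorProduct

namespace Pool.PER

open Pool.CGR Pool.CGS Pool.TAM Pool.AUT MulOpposite

namespace H1

variable {m : ℕ} {r : ℝ} {ν : Te m → ℝ}

theorem nm_nonneg (hν : IsNu r ν) (A : Matrix (Fin m) (Fin m) (Te m)) : 0 ≤ nm ν A :=
  Finset.sum_nonneg fun j _ => Finset.sum_nonneg fun k _ => hν.nonneg _

theorem nm_add (hν : IsNu r ν) (A B : Matrix (Fin m) (Fin m) (Te m)) :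
    nm ν (A + B) ≤ nm ν A + nm ν B := by
  unfold nm
  rw [← Finset.sum_add_distrib]
  refine Finset.sum_le_sum fun j _ => ?_
  rw [← Finset.sum_add_distrib]
  exact Finset.sum_le_sum fun k _ => hν.add _ _

theorem nm_smul (hν : IsNu r ν) (c : ℂ) (A : Matrix (Fin m) (Fin m) (Te m)) :
    nm ν (c • A) ≤ ‖c‖ * nm ν A := by
  unfold nm
  rw [Finset.mul_sum]
  refine Finset.sum_le_sum fun j _ => ?_
  rw [Finset.mul_sum]
  exact Finset.sum_le_sum fun k _ => hν.smul _ _

theorem nm_mul (hν : IsNu r ν) (h0 : ν 0 = 0) (hm : ∀ a b, ν (a * b) ≤ ν a * ν b)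
    (A B : Matrix (Fin m) (Fin m) (Te m)) : nm ν (A * B) ≤ nm ν A * nm ν B := by
  have h1 : ∀ j k, ν ((A * B) j k) ≤ ∑ l, ν (A j l) * ν (B l k) := by
    intro j k
    rw [Matrix.mul_apply]
    refine (Finset.le_sum_of_subadditive ν h0.le hν.add _ _).trans ?_
    exact Finset.sum_le_sum fun l _ => hm _ _
  have h2 : ∀ l, ∑ k, ν (B l k) ≤ nm ν B := fun l =>
    Finset.single_le_sum (f := fun l => ∑ k, ν (B l k))
      (fun l _ => Finset.sum_nonneg fun k _ => hν.nonneg _) (Finset.mem_univ l)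
  calc nm ν (A * B) ≤ ∑ j, ∑ k, ∑ l, ν (A j l) * ν (B l k) :=
        Finset.sum_le_sum fun j _ => Finset.sum_le_sum fun k _ => h1 j k
    _ = ∑ j, ∑ l, ν (A j l) * ∑ k, ν (B l k) := by
        refine Finset.sum_congr rfl fun j _ => ?_
        rw [Finset.sum_comm]
        refine Finset.sum_congr rfl fun l _ => ?_
        rw [Finset.mul_sum]
    _ ≤ ∑ j, ∑ l, ν (A j l) * nm ν B :=
        Finset.sum_le_sum fun j _ => Finset.sum_le_sum fun l _ =>
          mul_le_mul_of_nonneg_left (h2 l) (hν.nonneg _)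
    _ = nm ν A * nm ν B := by
        unfold nm
        rw [Finset.sum_mul]
        refine Finset.sum_congr rfl fun j _ => ?_
        rw [Finset.sum_mul]

theorem nm_zero (h0 : ν 0 = 0) : nm ν (0 : Matrix (Fin m) (Fin m) (Te m)) = 0 :=
  Finset.sum_eq_zero fun _ _ => Finset.sum_eq_zero fun _ _ => h0

theorem nm_one (h0 : ν 0 = 0) (h1 : ν 1 ≤ 1) :
    nm ν (1 : Matrix (Fin m) (Fin m) (Te m)) ≤ m := by
  have h2 : ∀ j : Fin m, ∑ k, ν ((1 : Matrix (Fin m) (Fin m) (Te m)) j k) ≤ 1 := by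
    intro j
    rw [Finset.sum_eq_single j]
    · rw [Matrix.one_apply_eq]
      exact h1
    · intro k _ hk
      rw [Matrix.one_apply_ne hk.symm, h0]
    · intro h
      exact absurd (Finset.mem_univ j) h
  calc nm ν (1 : Matrix (Fin m) (Fin m) (Te m)) ≤ ∑ _j : Fin m, (1 : ℝ) :=
        Finset.sum_le_sum fun j _ => h2 j
    _ = m := by simp

end H1

open H1

theorem nmm_thm (h1 : NUMStmt) : NMMStmt := by
  intro m r ν hr hν L hL
  obtain ⟨hone, hmul, hzero⟩ := h1 m r ν hr hν
  have hpow : ∀ n : ℕ, nm ν (L ^ (n + 1)) ≤ (1 / 2) ^ (n + 1) := by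
    intro n
    induction n with
    | zero =>
      rw [zero_add, pow_one, pow_one]
      exact hL
    | succ n ih =>
      rw [pow_succ L (n + 1), pow_succ (1 / 2 : ℝ) (n + 1)]
      exact (nm_mul hν hzero hmul _ _).trans
        (mul_le_mul ih hL (nm_nonneg hν _) (by positivity))
  refine ⟨hpow, fun N => ?_, fun N N' hN => ?_⟩
  · have h2 : nm ν (geo L N) ≤ m + (1 - (1 / 2) ^ N) := by
      induction N with
      | zero =>
        unfold geo
        rw [zero_add, Finset.sum_range_one, pow_zero, pow_zero, sub_self, add_zero]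
        exact nm_one hzero hone
      | succ N ih =>
        have h3 : geo L (N + 1) = geo L N + L ^ (N + 1) := by
          unfold geo
          rw [Finset.sum_range_succ]
        rw [h3]
        have h4 := nm_add hν (geo L N) (L ^ (N + 1))
        have h5 := hpow N
        have h6 : (1 / 2 : ℝ) ^ (N + 1) = (1 / 2) ^ N * (1 / 2) := pow_succ _ _
        rw [h6] at h5 ⊢
        linarith
    have h3 : (0 : ℝ) ≤ (1 / 2) ^ N := by positivity
    linarith
  · have h2 : nm ν (lo L N - lo L N') ≤ (1 / 2) ^ (N' + 1) - (1 / 2) ^ (N + 1) := by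
      induction N, hN using Nat.le_induction with
      | base =>
        rw [sub_self, sub_self, nm_zero hzero]
      | succ N hN ih =>
        have h3 : lo L (N + 1) - lo L N' = (lo L N - lo L N') +
            ((1 : ℂ) / (((N + 1 : ℕ) : ℂ) + 1)) • L ^ (N + 1 + 1) := by
          unfold lo
          rw [Finset.sum_range_succ _ (N + 1)]
          abel
        rw [h3]
        have h4 := nm_add hν (lo L N - lo L N')
          (((1 : ℂ) / (((N + 1 : ℕ) : ℂ) + 1)) • L ^ (N + 1 + 1))
        have h5 := hpow (N + 1)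
        have h6 := nm_smul hν ((1 : ℂ) / (((N + 1 : ℕ) : ℂ) + 1)) (L ^ (N + 1 + 1))
        have h7 : ‖(1 : ℂ) / (((N + 1 : ℕ) : ℂ) + 1)‖ ≤ 1 := by
          have h8 : (((N + 1 : ℕ) : ℂ) + 1) = ((N + 2 : ℕ) : ℂ) := by
            push_cast
            ring
          rw [h8, norm_div, norm_one, Complex.norm_natCast]
          rw [div_le_one (by positivity)]
          exact_mod_cast (by omega : 1 ≤ N + 2)
        have h8 : nm ν (((1 : ℂ) / (((N + 1 : ℕ) : ℂ) + 1)) • L ^ (N + 1 + 1)) ≤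
            (1 / 2) ^ (N + 1 + 1) := by
          have h9 := mul_le_mul_of_nonneg_right h7 (nm_nonneg hν (L ^ (N + 1 + 1)))
          linarith
        have h9 : (1 / 2 : ℝ) ^ (N + 1 + 1) = (1 / 2) ^ (N + 1) * (1 / 2) := pow_succ _ _
        rw [h9] at h8 ⊢
        linarith
    have h3 : (0 : ℝ) ≤ (1 / 2) ^ (N + 1) := by positivity
    have h4 : (1 / 2 : ℝ) ^ (N' + 1) = (1 / 2) ^ N' * (1 / 2) := pow_succ _ _
    have h5 : (0 : ℝ) ≤ (1 / 2) ^ N' := by positivity
    rw [h4] at h2
    linarith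

end Pool.PER
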